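import Pool.Agent.Results.MP_6e2fc3_nt.OddWeightsRankFormula
import Pool.Agent.Run7.h359.Twr

/-!
# Quadratic twists of central order zero of infinitely many forms of `GL(2)` at the same time, over
# multiquadratic fields

`K = ℚ(√-7)`, `ψ_M` is the Hecke character over `K` of the twist `E_M` of `X_0(49)` by `M`, and
`F = ℚ(√d_1, …, √d_n)`, a totally real field. For odd `k > 0` let `π_k` be the automorphic representation of
`GL_2` over `F` of the newform of weight `2k` of `ψ_M^{2k-1}` (its base change from `ℚ`, a Hilbert modular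
form of parallel weight `2k`); it is self-contragredient. The twist by the quadratic character `χ_D` of
`F(√D)/F` belongs to `ψ_{MD}^{2k-1}`. The Euler factor of `L(s - k + 1/2, π_k ⊗ χ_D)` at the place `v` is
`1 / ((1 - α^{2k-1} q^{-s}) (1 - β^{2k-1} q^{-s}))`, where `(1 - α T) (1 - β T)` is the local polynomial of
`E_{MD}` at `v` (of Mathlib) and `q` is the norm of `v`; the centre is `s = k`.

Theorem: let `M`, `d_1, …, d_n` be in the class of the squarefree numbers `1 mod 8` with all prime factors
`1 mod 4`. Then for at least `a X / √(log X)` of the `D ≤ X` of the class, `a > 0`, the central value of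
`π_k ⊗ χ_D` over `F` is nonzero for **all** odd `k > 0` at the same time. This is the order of magnitude of
the class (Landau). For `F = ℚ` the conductor of `χ_D` is `D`. If this is known for `M` (in weight two, by
descent over `ℚ`), then an infinite sequence of characters `χ_{D_0}, χ_{D_1}, …` can be chosen such that the
central orders of all the `π_k ⊗ χ` are zero for all the characters `χ` of the infinite group that they
generate, over `ℚ`.
-/

set_option autoImplicit false

namespace Pool.Agent.Results.MP_50bb2e_nt.AllOddWeightsTwistCount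

open Pool.Agent.Results.MP_787500_nt.AllWeightsMultiquadraticX49
open Pool.Agent.Results.MP_6e2fc3_nt.OddWeightsRankFormula
open scoped Classical

/-- For **all** odd `k > 0` the `L`-function over `F = ℚ(√d_1, …, √d_n)` of the form of weight `2k` that
belongs to the curve `E_N` has an entire continuation that is not zero at the centre. -/
def NonzeroCentralValues (N : ℕ) {n : ℕ} (d : Fin n → ℕ) : Prop :=
  ∀ s : Fin n → QBar, (∀ i, s i ^ 2 = (d i : QBar)) → ∀ k : ℕ, Odd k →
    ∃ Λ : ℂ → ℂ, IsLFunction (EF s N) k Λ ∧ Λ k ≠ 0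

/-- There is an infinite sequence `D_0, D_1, …` of members of the class, no product of some of them being a
square, such that for all the finite products `P = ∏_{i ∈ T} D_i` all the central values of the forms that
belong to `E_{MP}` over `ℚ` are nonzero. -/
def InfiniteGroup (M : ℕ) : Prop :=
  ∃ D : ℕ → ℕ, (∀ i, Wide (D i)) ∧ (∀ T : Finset ℕ, T.Nonempty → ¬ IsSquare (∏ i ∈ T, D i)) ∧
    ∀ T : Finset ℕ, NonzeroCentralValues (M * ∏ i ∈ T, D i) (fun i : Fin 0 => i.elim0)

section proof

theorem nonzero_of {M n : ℕ} {d : Fin n → ℕ} (hG : GoodPair M d) : NonzeroCentralValues M d :=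
  fun _ hs _ hk => lfun hG hs hk

lemma good_sub {M n : ℕ} {d : Fin n → ℕ} (hG : GoodPair M d) (T : Finset (Fin n)) :
    GoodPair (M * ∏ i ∈ T, d i) (fun i : Fin 0 => i.elim0) := by
  intro S
  obtain ⟨D, k, h1, h2, h3, h4⟩ := hG T
  refine ⟨D, k, h1, h2, h3, ?_⟩
  rw [Subsingleton.elim S ∅, Finset.prod_empty, mul_one, h4]

lemma prod_fin (D : ℕ → ℕ) (T : Finset ℕ) :
    ∃ (m : ℕ) (S : Finset (Fin m)), ∏ i ∈ T, D i = ∏ i ∈ S, D (i : ℕ) ∧ (T.Nonempty → S.Nonempty) := by
  obtain ⟨m, hm⟩ : ∃ m : ℕ, ∀ i ∈ T, i < m :=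
    ⟨T.sup id + 1, fun i hi => Nat.lt_succ_of_le (Finset.le_sup (f := id) hi)⟩
  have hT : T = (Finset.univ.filter fun i : Fin m => (i : ℕ) ∈ T).image Fin.val := by
    ext i
    simp only [Finset.mem_image, Finset.mem_filter, Finset.mem_univ, true_and]
    exact ⟨fun hi => ⟨⟨i, hm i hi⟩, hi, rfl⟩, fun ⟨j, hj, hji⟩ => hji ▸ hj⟩
  refine ⟨m, Finset.univ.filter fun i : Fin m => (i : ℕ) ∈ T, ?_, fun ⟨i, hi⟩ => ?_⟩
  · conv_lhs => rw [hT]
    rw [Finset.prod_image fun x _ y _ h => Fin.ext h]
  · exact ⟨⟨i, hm i hi⟩, Finset.mem_filter.2 ⟨Finset.mem_univ _, hi⟩⟩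

end proof

/-- **The number of the quadratic twists with nonzero central values for all odd weights.** -/
theorem result :
    (∀ (n M : ℕ) (d : Fin n → ℕ), Wide M → (∀ i, Wide (d i)) →
      OfOrder fun D => NonzeroCentralValues (M * D) d) ∧
    (∀ M : ℕ, Wide M → RankZeroShaTwo M → InfiniteGroup M) := by
  refine ⟨fun n M d hM hd => ?_, fun M hM hR => ?_⟩
  · exact ofOrder_mono (P := fun D => GoodPair (M * D) d) (fun D h => nonzero_of h)
      (Run7.h359.CW.cnt_good hM hd)
  · obtain ⟨D, h1, h2⟩ := Run7.h359.TW.exists_tower hM hR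
    refine ⟨D, h1, fun T hT => ?_, fun T => ?_⟩
    · obtain ⟨m, S, hS, hne⟩ := prod_fin D T
      rw [hS]
      exact (h2 m).1 S (hne hT)
    · obtain ⟨m, S, hS, -⟩ := prod_fin D T
      rw [hS]
      exact nonzero_of (good_sub (h2 m).2 S)

end Pool.Agent.Results.MP_50bb2e_nt.AllOddWeightsTwistCount
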