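import Pool.Agent.Run7.h743.PL.Main
import Pool.Agent.Run7.h424.N15.RF15
import Pool.Agent.Run7.h424.N15.RF21
import Pool.Agent.Run7.h424.N15.RF24
import Pool.Agent.Run7.h238.J.Grand
import Pool.Agent.Run7.h289.J.Cl
import Pool.Agent.Run7.h843.G3

/-!
# Non-vanishing of the central values of quadratic twists with prescribed local components

Let `F = ℚ`, and for `N = 15, 21, 24` let `π_N` be the cuspidal automorphic representation of `GL_2`
belonging to the elliptic curve `X_0(N)` (no complex multiplication). For a squarefree `a > 0`,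
`a = 1` modulo `4`, let `π_{N,a} = π_N ⊗ χ_a`. Let `T` be a finite nonempty set of pairs `(N, a)`,
`χ = χ_{-n₀}` a quadratic character such that `a n₀` lies in the admissible classes for all `(N, a)` in
`T`, and `S` ANY finite set of primes containing the prime divisors of `2N`, `(N, a) ∈ T`, and
none where `χ` ramifies. Let `𝒜` be the set of the quadratic characters with the same components as
`χ` at infinity and at the primes of `S`, ordered by the conductor. (All the twists `π_{N,a} ⊗ χ'`,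
`χ' ∈ 𝒜`, have root number `+1`.) Let `k` be the number of different `a` in `T`. Then for at least
`0.2887 ^ k` of the `χ'` of `𝒜` (lower density) the central values of ALL `π_{N,a} ⊗ χ'`, `(N, a) ∈ T`,
are different from zero. More precisely this is so if, for each `a`, the squarefree part `m` of
`a D`, `χ' = χ_{-D}`, has no factorization `m = b c`, `b, c > 1`, for which `b` is a square modulo the
prime divisors of `c` and conversely, and exactly the proportion `η ^ k` of the `χ' ∈ 𝒜` has this property,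
`η = ∏ (1 - 2^{-i}) = 0.2888...`. For `T = {(N, a)}` this is the question Q1 for `π_{N,a}`, `χ`, `S`,
`ε = 1` with the proportion `0.2887` in place of `1`, for infinitely many `π`.

The proof combines the work of several members of the team: the central values of the twists of
`X_0(15)`, `X_0(21)`, `X_0(24)` are periods times squares of integers which are odd if the criterion holds
(helpers 741, 209, 135, 238, 555, 483, 843, 89, 424), and the joint law of the criterion for finitely many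
multipliers in residue classes (helpers 843, 238, 424, 209, 89, 289, 916). Here: the local conditions.
-/

set_option autoImplicit false

open scoped Classical
open Finset Filter Topology

namespace Pool.Agent.Results.MP_50bb2e_nt.PrescribedLocalComponents

/-- The fundamental discriminants, together with `1`: the numbers `D` of the quadratic characters `χ_D` over
`ℚ`. The conductor of `χ_D` is `|D|`. -/
def IsDiscriminant (D : ℤ) : Prop :=
  (Squarefree D ∧ D % 4 = 1) ∨ ∃ m : ℤ, D = 4 * m ∧ Squarefree m ∧ (m % 4 = 2 ∨ m % 4 = 3)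

/-- `χ_D` and `χ_D₀` have the same component at infinity and at the primes of `S`: `D D₀` is a square in
`ℝ` and in `ℚ_p` for `p ∈ S`. -/
def SameComponents (S : Finset ℕ) (D₀ D : ℤ) : Prop :=
  0 < D * D₀ ∧ ∀ (p : ℕ) [Fact p.Prime], p ∈ S → IsSquare ((D * D₀ : ℤ) : ℚ_[p])

/-- The number of the characters `χ_D` of conductor at most `X` with the same components as
`χ_D₀` at infinity and at the primes of `S` and with the property `Q`. -/
noncomputable def count (S : Finset ℕ) (D₀ : ℤ) (Q : ℤ → Prop) (X : ℕ) : ℕ :=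
  {D : ℤ | |D| ≤ X ∧ IsDiscriminant D ∧ SameComponents S D₀ D ∧ Q D}.ncard

/-- `X_0(N)` has the equation `y² = x³ + coeffA N x + coeffB N`. -/
def coeffA (N : ℕ) : ℤ := if N = 15 then -12987 else if N = 21 then -5211 else -351

/-- `X_0(N)` has the equation `y² = x³ + coeffA N x + coeffB N`. -/
def coeffB (N : ℕ) : ℤ := if N = 15 then -263466 else if N = 21 then -31050 else 1890

/-- The central value of the elliptic curve `y² = x³ + a x + b` over `ℚ` is not zero: the Euler product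
over the primes `p ∤ 2Δ` extends to an entire function whose order at `s = 1` is zero. -/
def OrderZero (a b : ℤ) : Prop :=
  ∃ F : ℂ → ℂ, Differentiable ℂ F ∧
    (∀ s : ℂ, (3 : ℝ) / 2 < s.re →
      HasProd
        (fun p : ℕ =>
          if p.Prime ∧ ¬ ((p : ℤ) ∣ 2 * (-4 * a ^ 3 - 27 * b ^ 2)) then
            (1 - ((p : ℂ) - (Nat.card {q : ZMod p × ZMod p //
                q.2 ^ 2 = q.1 ^ 3 + (a : ZMod p) * q.1 + (b : ZMod p)} : ℂ))
                * (p : ℂ) ^ (-s) + (p : ℂ) ^ (1 - 2 * s))⁻¹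
          else 1)
        (F s)) ∧
    analyticOrderAt F 1 = 0

/-- The central value of `π_N ⊗ χ_a ⊗ χ_D` is not zero; this twist belongs to the curve
`y² = x³ + coeffA N d² x + coeffB N d³` for any `d` with `a D = d g²`. -/
def CentralOrderZero (N a : ℕ) (D : ℤ) : Prop :=
  ∃ d g : ℤ, g ≠ 0 ∧ (a : ℤ) * D = d * g ^ 2 ∧ OrderZero (coeffA N * d ^ 2) (coeffB N * d ^ 3)

/-- The admissible classes. -/
def Admissible (N m : ℕ) : Prop :=
  (N = 15 ∧ (m % 60 = 23 ∨ m % 60 = 47)) ∨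
  (N = 21 ∧ (m % 84 = 19 ∨ m % 84 = 31 ∨ m % 84 = 55)) ∨ (N = 24 ∧ m % 24 = 11)

/-- The squarefree part of `a n`, for squarefree `a` and `n`. -/
def part (a n : ℕ) : ℕ := a * n / (Nat.gcd a n) ^ 2

/-- Whenever `b c = m`, where `b` is a square modulo all primes dividing `c` and `c` is a square modulo
all primes dividing `b`, then `b = 1` or `c = 1`. -/
def Criterion (m : ℕ) : Prop :=
  ∀ b c : ℕ, b * c = m → (∀ p : ℕ, p.Prime → p ∣ c → IsSquare (b : ZMod p)) →
    (∀ p : ℕ, p.Prime → p ∣ b → IsSquare (c : ZMod p)) → b = 1 ∨ c = 1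

/-- The constant `0.2888...`. -/
noncomputable def η : ℝ := ∏' i : ℕ, (1 - (1 / 2 : ℝ) ^ (i + 1))

section proof

open Pool.Agent.N969.P15 (Qc)
open Run7.h743.PL (PP Fam cnt cnt_eq md twp)

theorem sq_iff {p : ℕ} (hp : p.Prime) {b : ℕ} (hb : ¬ p ∣ b) :
    jacobiSym b p = 1 ↔ IsSquare (b : ZMod p) := by
  have : Fact p.Prime := ⟨hp⟩
  have h0 : ((b : ℤ) : ZMod p) ≠ 0 := by
    rw [Int.cast_natCast]
    intro h
    exact hb ((ZMod.natCast_eq_zero_iff b p).1 h)
  rw [← jacobiSym.legendreSym.to_jacobiSym, legendreSym.eq_one_iff p h0, Int.cast_natCast]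

theorem crit_iff {n : ℕ} (h : Squarefree n) : Criterion n ↔ Qc n := by
  have key : ∀ b c : ℕ, b * c = n →
      (((∀ p : ℕ, p.Prime → p ∣ c → IsSquare (b : ZMod p)) ↔
        (∀ p ∈ c.primeFactors, jacobiSym b p = 1)) ∧
      ((∀ p : ℕ, p.Prime → p ∣ b → IsSquare (c : ZMod p)) ↔
        (∀ p ∈ b.primeFactors, jacobiSym c p = 1))) := by
    intro b c hbc
    have hc0 : c ≠ 0 := by
      rintro rfl
      rw [mul_zero] at hbc
      exact h.ne_zero hbc.symm
    have hb0 : b ≠ 0 := by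
      rintro rfl
      rw [zero_mul] at hbc
      exact h.ne_zero hbc.symm
    have hco : b.Coprime c := by
      rw [← hbc] at h
      exact (Nat.squarefree_mul_iff.1 h).1
    constructor
    · constructor
      · intro h1 p hp
        have hp' := Nat.prime_of_mem_primeFactors hp
        have hd := Nat.dvd_of_mem_primeFactors hp
        refine (sq_iff hp' fun hpb => ?_).2 (h1 p hp' hd)
        exact hp'.one_lt.ne' (Nat.eq_one_of_dvd_coprimes hco hpb hd)
      · intro h1 p hp' hd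
        refine (sq_iff hp' fun hpb => ?_).1 (h1 p (Nat.mem_primeFactors.2 ⟨hp', hd, hc0⟩))
        exact hp'.one_lt.ne' (Nat.eq_one_of_dvd_coprimes hco hpb hd)
    · constructor
      · intro h1 p hp
        have hp' := Nat.prime_of_mem_primeFactors hp
        have hd := Nat.dvd_of_mem_primeFactors hp
        refine (sq_iff hp' fun hpb => ?_).2 (h1 p hp' hd)
        exact hp'.one_lt.ne' (Nat.eq_one_of_dvd_coprimes hco hd hpb)
      · intro h1 p hp' hd
        refine (sq_iff hp' fun hpb => ?_).1 (h1 p (Nat.mem_primeFactors.2 ⟨hp', hd, hb0⟩))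
        exact hp'.one_lt.ne' (Nat.eq_one_of_dvd_coprimes hco hd hpb)
  constructor
  · intro h1 b c hbc h2 h3
    exact h1 b c hbc ((key b c hbc).1.2 h2) ((key b c hbc).2.2 h3)
  · intro h1 b c hbc h2 h3
    exact h1 b c hbc ((key b c hbc).1.1 h2) ((key b c hbc).2.1 h3)

theorem count_eq (S : Finset ℕ) (D₀ : ℤ) (Q : ℤ → Prop) (X : ℕ) :
    count S D₀ Q X = cnt S D₀ Q X := by
  unfold count cnt
  congr 1
  ext D
  constructor
  · rintro ⟨h1, h2, h3, h4⟩
    exact ⟨h1, ⟨h2, h3.1, h3.2⟩, h4⟩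
  · rintro ⟨h1, ⟨h2, h3, h5⟩, h4⟩
    exact ⟨h1, h2, ⟨h3, h5⟩, h4⟩

theorem fams : Run7.h743.PL.Fams :=
  ⟨fun _ h1 h2 h3 => Run7.h424.N15.rf15 h1 h2 h3, fun _ h1 h2 h3 => Run7.h424.N15.rf21 h1 h2 h3,
    fun _ h1 h2 h3 => Run7.h424.N15.rf24 h1 h2 h3⟩

theorem sqf_part {a n : ℕ} (ha : Squarefree a) (hn : Squarefree n) : Squarefree (part a n) :=
  (Pool.Agent.Run7.h424.J.tw_spec ha hn).1

theorem order_of {N a n : ℕ} {S : Finset ℕ} {n₀ : ℕ} (ha : Squarefree a) (ha4 : a % 4 = 1)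
    (hc : Admissible N (a * n₀)) (hN : ∀ p : ℕ, p.Prime → p ∣ 2 * N → p ∈ S) (hn : Squarefree n)
    (hP : PP S n₀ n) (hcr : Criterion (part a n)) : CentralOrderZero N a (-(n : ℤ)) := by
  have hs := sqf_part ha hn
  have hc' : Run7.h743.PL.Cls N (part a n) := Run7.h743.PL.cls_twp ha4 hc hN hP
  obtain ⟨F, h1, h2, h3, -⟩ := Run7.h743.PL.rfz_of fams hs hc' ((crit_iff hs).1 hcr)
  refine ⟨-(part a n : ℤ), (Nat.gcd a n : ℤ), ?_, ?_, F, h1, h2, h3⟩
  · have : 0 < Nat.gcd a n := Nat.gcd_pos_of_pos_left n (Nat.pos_of_ne_zero ha.ne_zero)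
    exact_mod_cast this.ne'
  · have h := Run7.h743.PL.twp_mul a n
    have h' : ((part a n : ℕ) : ℤ) * (Nat.gcd a n : ℤ) ^ 2 = a * n := by exact_mod_cast h
    linear_combination h'

end proof

/-- **Central values of quadratic twists with prescribed local components.** -/
theorem result (T : Finset (ℕ × ℕ)) (hT : T.Nonempty) (S : Finset ℕ) (n₀ : ℕ)
    (hS : ∀ p ∈ S, p.Prime ∧ ¬ p ∣ n₀)
    (hTS : ∀ x ∈ T, Squarefree x.2 ∧ x.2 % 4 = 1 ∧ Admissible x.1 (x.2 * n₀) ∧
      ∀ p : ℕ, p.Prime → p ∣ 2 * x.1 → p ∈ S) :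
    (∀ D : ℤ, IsDiscriminant D → SameComponents S (-(n₀ : ℤ)) D →
      (∀ x ∈ T, Criterion (part x.2 D.natAbs)) → ∀ x ∈ T, CentralOrderZero x.1 x.2 D) ∧
    Tendsto (fun X : ℕ => (count S (-(n₀ : ℤ)) (fun D => ∀ x ∈ T, Criterion (part x.2 D.natAbs)) X : ℝ) /
      (count S (-(n₀ : ℤ)) (fun _ => True) X : ℝ)) atTop (𝓝 (η ^ (T.image Prod.snd).card)) ∧
    0.2887 < η ∧ η < 0.2889 ∧
    (∀ᶠ X : ℕ in atTop, 0.2887 ^ (T.image Prod.snd).card * (count S (-(n₀ : ℤ)) (fun _ => True) X : ℝ) ≤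
      (count S (-(n₀ : ℤ)) (fun D => ∀ x ∈ T, CentralOrderZero x.1 x.2 D) X : ℝ)) ∧
    ∃ c : ℝ, 0 < c ∧ ∀ᶠ X : ℕ in atTop, c * X ≤
      (count S (-(n₀ : ℤ)) (fun D => ∀ x ∈ T, CentralOrderZero x.1 x.2 D) X : ℝ) := by
  have hη1 : 0.2887 < η := Pool.Agent.N916.GB.eta_bounds.1
  have hη2 : η < 0.2889 := Pool.Agent.N916.GB.eta_bounds.2
  obtain ⟨x₀, hx₀⟩ := hT
  have h4 : n₀ % 4 = 3 := Run7.h743.PL.four_of (hTS x₀ hx₀).2.1
    (Run7.h743.PL.cls_four (hTS x₀ hx₀).2.2.1)
  have h2 : 2 ∈ S := (hTS x₀ hx₀).2.2.2 2 Nat.prime_two (Dvd.intro _ rfl)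
  have hM8 : 8 ∣ Run7.h743.PL.md S := Dvd.intro _ rfl
  have hM0 := Run7.h743.PL.md_pos hS
  have hPm : ∀ n, Run7.h743.PL.PP S n₀ n ↔ Run7.h743.PL.PP S n₀ (n % Run7.h743.PL.md S) :=
    fun n => Run7.h743.PL.PP_mod n
  have hP4 : ∀ n, Run7.h743.PL.PP S n₀ n → n % 4 = 3 := by
    intro n hn
    have := hn.1
    omega
  have hPs := Run7.h743.PL.PP_self (n₀ := n₀) hS
  have hcop := Run7.h743.PL.cop_md (n₀ := n₀) (by omega) hS
  have hcnt : ∀ (Q : ℤ → Prop) (X : ℕ)
      [DecidablePred fun n : ℕ => Squarefree n ∧ Run7.h743.PL.PP S n₀ n ∧ Q (-(n : ℤ))],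
      count S (-(n₀ : ℤ)) Q X =
      ((Icc 1 X).filter fun n => Squarefree n ∧ Run7.h743.PL.PP S n₀ n ∧ Q (-(n : ℤ))).card := by
    intro Q X inst
    rw [count_eq, Run7.h743.PL.cnt_eq h4 h2 hS]
    congr
  have himp : ∀ n : ℕ, Squarefree n → Run7.h743.PL.PP S n₀ n →
      (∀ x ∈ T, Criterion (part x.2 n)) → ∀ x ∈ T, CentralOrderZero x.1 x.2 (-(n : ℤ)) := by
    intro n hn hP hc x hx
    obtain ⟨g1, g2, g3, g4⟩ := hTS x hx
    exact order_of g1 g2 g3 g4 hn hP (hc x hx)
  have hlim : Tendsto (fun X : ℕ => (count S (-(n₀ : ℤ))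
      (fun D => ∀ x ∈ T, Criterion (part x.2 D.natAbs)) X : ℝ) /
      (count S (-(n₀ : ℤ)) (fun _ => True) X : ℝ)) atTop (𝓝 (η ^ (T.image Prod.snd).card)) := by
    have h := Pool.Agent.Run7.h238.J.dens_set (fun N => Pool.Agent.Run7.h289.J.t_JDQ _)
      (T.image Prod.snd) (by
        intro a ha
        obtain ⟨x, hx, rfl⟩ := mem_image.1 ha
        exact (hTS x hx).1) (by
        intro a ha
        obtain ⟨x, hx, rfl⟩ := mem_image.1 ha
        exact (hTS x hx).2.1) (Run7.h743.PL.md S) hM8 hM0 (Run7.h743.PL.PP S n₀) hPm hP4 n₀ hPs hcop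
    refine h.congr fun X => ?_
    rw [hcnt, hcnt]
    congr 3
    · refine filter_congr fun n _ => ?_
      rw [Int.natAbs_neg, Int.natAbs_natCast]
      constructor
      · rintro ⟨g1, g2, g3⟩
        refine ⟨g1, g2, fun x hx => ?_⟩
        exact (crit_iff (sqf_part (hTS x hx).1 g1)).2 (g3 x.2 (mem_image_of_mem _ hx))
      · rintro ⟨g1, g2, g3⟩
        refine ⟨g1, g2, fun a ha => ?_⟩
        obtain ⟨x, hx, rfl⟩ := mem_image.1 ha
        exact (crit_iff (sqf_part (hTS x hx).1 g1)).1 (g3 x hx)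
    · refine filter_congr fun n _ => ?_
      simp
  have hmono : ∀ X : ℕ, (count S (-(n₀ : ℤ)) (fun D => ∀ x ∈ T, Criterion (part x.2 D.natAbs)) X : ℝ) ≤
      (count S (-(n₀ : ℤ)) (fun D => ∀ x ∈ T, CentralOrderZero x.1 x.2 D) X : ℝ) := by
    intro X
    rw [hcnt, hcnt]
    refine Nat.cast_le.2 (card_le_card fun n hn => ?_)
    rw [mem_filter] at hn ⊢
    rw [Int.natAbs_neg, Int.natAbs_natCast] at hn
    exact ⟨hn.1, hn.2.1, hn.2.2.1, himp n hn.2.1 hn.2.2.1 hn.2.2.2⟩
  have hlow : ∀ X : ℕ, 100 * Run7.h743.PL.md S ^ 2 ≤ X →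
      1 / (4 * Run7.h743.PL.md S) * (X : ℝ) ≤ (count S (-(n₀ : ℤ)) (fun _ => True) X : ℝ) := by
    intro X hX
    have := Pool.Agent.Run7.h843.G.low_P (Run7.h743.PL.md S) hM8 hM0 (Run7.h743.PL.PP S n₀) hPm n₀ hPs
      hcop X hX
    rw [hcnt]
    simpa using this
  have hprop : ∀ᶠ X : ℕ in atTop, 0.2887 ^ (T.image Prod.snd).card *
      (count S (-(n₀ : ℤ)) (fun _ => True) X : ℝ) ≤
      (count S (-(n₀ : ℤ)) (fun D => ∀ x ∈ T, CentralOrderZero x.1 x.2 D) X : ℝ) := by
    have hk : 0 < (T.image Prod.snd).card := card_pos.2 ⟨x₀.2, mem_image_of_mem _ hx₀⟩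
    have hlt : (0.2887 : ℝ) ^ (T.image Prod.snd).card < η ^ (T.image Prod.snd).card :=
      pow_lt_pow_left₀ hη1 (by norm_num) hk.ne'
    filter_upwards [hlim.eventually (lt_mem_nhds hlt), eventually_ge_atTop (100 * Run7.h743.PL.md S ^ 2),
      eventually_gt_atTop 0] with X hX hX1 hX2
    have h5 : (0 : ℝ) < (count S (-(n₀ : ℤ)) (fun _ => True) X : ℝ) := by
      refine lt_of_lt_of_le ?_ (hlow X hX1)
      have : (0 : ℝ) < Run7.h743.PL.md S := by exact_mod_cast hM0
      have h6 : (0 : ℝ) < X := by exact_mod_cast hX2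
      positivity
    exact ((lt_div_iff₀ h5).1 hX).le.trans (hmono X)
  refine ⟨?_, hlim, hη1, hη2, hprop, 0.2887 ^ (T.image Prod.snd).card * (1 / (4 * Run7.h743.PL.md S)),
    ?_, ?_⟩
  · intro D h1 h3 hc
    obtain ⟨n, hn, rfl, hs, hP⟩ := (Run7.h743.PL.fam_iff h4 h2 hS D).1 ⟨h1, h3.1, h3.2⟩
    rw [Int.natAbs_neg, Int.natAbs_natCast] at hc
    exact himp n hs hP hc
  · have : (0 : ℝ) < Run7.h743.PL.md S := by exact_mod_cast hM0
    positivity
  · filter_upwards [hprop, eventually_ge_atTop (100 * Run7.h743.PL.md S ^ 2)] with X hX hX1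
    refine le_trans ?_ hX
    rw [mul_assoc]
    exact mul_le_mul_of_nonneg_left (hlow X hX1) (by positivity)

end Pool.Agent.Results.MP_50bb2e_nt.PrescribedLocalComponents
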