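import Mathlib
import Pool.Agent.Run7.h741.LC.Lvs
import Pool.Agent.Run7.h238.G15.Gf
import Pool.Agent.Run7.h238.G15.A21
import Pool.Agent.Run7.h238.G15.A24

/-!
# Quadratic twists with prescribed local components for three `j`-invariants without complex
# multiplication

Let `E : y² = x³ + a x + b` be an elliptic curve over `ℚ` with the `j`-invariant of `X_0(15)`, `X_0(21)`
or `X_0(24)` (three families of quadratic twists, without complex multiplication), and `π = π_E` the
automorphic representation of `GL_2` over `ℚ` of `E`. The quadratic characters over `ℚ` are the `χ_d`, `d`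
squarefree, and `π ⊗ χ_d` belongs to the twist `E^(d)`, with `ord_{s=1/2} L(s, π ⊗ χ_d)` the analytic
rank of `E^(d)`. For a finite set `S` of places and a character `χ = χ_d` let `Family S d` be the set
of the `χ' = χ_e` with `χ'_v = χ_v` for all `v ∈ S`, ordered by the conductor. If `S` contains the real
place and the bad primes of `E`, then the root number of `π ⊗ χ'` is the same for all `χ'` in
`Family S d`, which is then the set `𝒜` of the problem. In general `𝒜` (`ε = +1`) is a subset of
`Family S d` that contains the `χ'` with `ord_{s=1/2} L(s, π ⊗ χ') = 0`.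

`IsTwist C a b d n`: `E^(d)` is the twist by `-n` of `X_0(15)`, `X_0(21)`, `X_0(24)`, with `n` squarefree
in the class (`n ≡ 23, 47 mod 60`, `n ≡ 19, 31, 55 mod 84`, `n ≡ 11 mod 24` respectively).

* (Criterion) if only the trivial factorizations of `n` are solvable, that is, if the class group of
  `ℚ(√-n)` has no element of order four, then the analytic rank of `E^(d)` is zero.
* (Exact proportion with local conditions) for every finite set `S` of places that contains `∞`, `2` and
  the primes of bad reduction of `E` and every `χ_d` with `IsTwist C a b d n` for some `n`, **all** the `χ'`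
  in `𝒜 = Family S d` are of this form and exactly the proportion
  `η = ∏_{i ≥ 1} (1 - 2^{-i}) = 0.2887...` of them satisfies the criterion. Hence the lower limit of the
  proportion of the `χ' ∈ 𝒜` of order `0` is at least `η`. The set `S` is arbitrarily large and the
  characters may be ramified at any of the primes of `S`.
* (Every finite set of places) for every finite set `S` of places and every `χ` such that one `χ'` with
  the same components on `S` is of the form above, the `χ'` of order `0` have a positive lower density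
  among all the `χ'` with `χ'_v = χ_v` for `v ∈ S`.
* (Every character) this is so for **every** quadratic character `χ` if `S` does not contain the real
  place and the primes dividing `30` (`42`, `6` respectively): the local components at finitely many primes
  outside `{2, 3, 5}` (`{2, 3, 7}`, `{2, 3}`) can be prescribed arbitrarily.

Proof. The central values of the three families of twists are `2 ^ ω` times squares of coefficients of
ternary theta series (theorems of Gross type, proved in the project), the parity of these coefficients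
is given by the criterion. The law with local conditions follows from the law of the numbers of
solvable factorizations in arithmetic progressions modulo any multiple `M` of `8`, not necessarily
prime to `M` (`Run7/h843/G7`), from the local constancy of the square classes (Hensel), and from the
bijection of `Family S d` with a set of numbers `n` with local conditions, which multiplies the
conductor by a constant on the family (`Run7/h741/LC`).

Joint work of helper741 (local conditions), helper843 (law modulo any multiple of eight), helper238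
(`L`-functions with minimal models, all levels), helper26, helper89, helper135, helper209, helper289,
helper424, helper483, helper555 and others (central values of the three families).
-/

set_option autoImplicit false

namespace Pool.Agent.Results.MP_50bb2e_nt.TwistsWithLocalConditions

open WeierstrassCurve Filter Topology

open scoped Classical

/-! ### Analytic rank -/

/-- `M` is an integral Weierstrass equation of the elliptic curve `W` over `ℚ`. -/
def IsModel (W : WeierstrassCurve ℚ) (M : WeierstrassCurve ℤ) : Prop :=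
  ∃ C : VariableChange ℚ, C • W = M.map (Int.castRingHom ℚ)

/-- The equation `M` is minimal at `p`: no integral equation of the same curve has a discriminant
with a smaller `p`-adic valuation. -/
def MinAt (M : WeierstrassCurve ℤ) (p : ℕ) : Prop :=
  ∀ M' : WeierstrassCurve ℤ, IsModel (M.map (Int.castRingHom ℚ)) M' →
    padicValInt p M.Δ ≤ padicValInt p M'.Δ

/-- The number of solutions modulo `p` of the equation `M` (without the point at infinity). -/
noncomputable def pts (M : WeierstrassCurve ℤ) (p : ℕ) : ℕ :=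
  Nat.card {z : ZMod p × ZMod p // z.2 ^ 2 + M.a₁ * z.1 * z.2 + M.a₃ * z.2 =
    z.1 ^ 3 + M.a₂ * z.1 ^ 2 + M.a₄ * z.1 + M.a₆}

/-- The Euler factor `(1 - a_p p^{-s} + ε(p) p^{1-2s})⁻¹`, `a_p = p + 1 - #M(𝔽_p)`, where `ε(p)` is
`0` if `p` divides the discriminant of `M` and `1` otherwise (for `M` minimal at `p`). -/
noncomputable def euler (M : WeierstrassCurve ℤ) (p : ℕ) (s : ℂ) : ℂ :=
  (1 - ((p : ℂ) - pts M p) * (p : ℂ) ^ (-s) +
    if (p : ℤ) ∣ M.Δ then 0 else (p : ℂ) ^ (1 - 2 * s))⁻¹

/-- `L` is the Hasse-Weil `L`-function of `W`: it is entire and, for `Re s > 3/2`, the product of the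
Euler factors, the one at `p` computed with an integral equation of `W` which is minimal at `p`. -/
def IsLFunction (W : WeierstrassCurve ℚ) (L : ℂ → ℂ) : Prop :=
  Differentiable ℂ L ∧ ∃ M : Nat.Primes → WeierstrassCurve ℤ,
    (∀ p : Nat.Primes, IsModel W (M p) ∧ MinAt (M p) p) ∧
    ∀ s : ℂ, 3 / 2 < s.re → HasProd (fun p : Nat.Primes => euler (M p) p s) (L s)

/-- The analytic rank of `W` is `r`: the `L`-function has order of vanishing `r` at `1`. -/
def AnalyticRank (W : WeierstrassCurve ℚ) (r : ℕ) : Prop :=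
  ∃ L : ℂ → ℂ, IsLFunction W L ∧ analyticOrderAt L 1 = r

/-- The quadratic twist `y² = x³ + a d² x + b d³` by `d` of `y² = x³ + a x + b`. -/
def twist (a b : ℚ) (d : ℤ) : WeierstrassCurve ℚ := ⟨0, 0, 0, a * d ^ 2, b * d ^ 3⟩

/-! ### Quadratic characters with prescribed components -/

/-- A place of `ℚ`: the real place `none`, or a prime number. -/
abbrev Place := Option Nat.Primes

/-- The quadratic characters of `ℚ(√d)` and `ℚ(√e)` have the same component at the place `v`: `d e` is a
square in the completion (`d`, `e` are not zero). -/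
def SameAt : Place → ℤ → ℤ → Prop
  | none, d, e => 0 < d * e
  | some p, d, e =>
    haveI : Fact (p : ℕ).Prime := ⟨p.2⟩
    IsSquare ((d : ℚ_[(p : ℕ)]) * (e : ℚ_[(p : ℕ)]))

/-- The quadratic characters `χ_e`, `e` squarefree, with the same components as `χ_d` at the places of
`S`. -/
def Family (S : Finset Place) (d : ℤ) : Set ℤ := {e | Squarefree e ∧ ∀ v ∈ S, SameAt v d e}

/-- The conductor of the quadratic character `χ_d`, `d` squarefree. -/
def conductor (d : ℤ) : ℕ := if d % 4 = 1 then d.natAbs else 4 * d.natAbs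

/-- The number of the characters of conductor at most `X` in the family with the property `Q`. -/
noncomputable def num (S : Finset Place) (d : ℤ) (Q : ℤ → Prop) (X : ℕ) : ℕ :=
  {e ∈ Family S d | conductor e ≤ X ∧ Q e}.ncard

/-! ### The three curves -/

/-- The three modular curves `X_0(15)`, `X_0(21)`, `X_0(24)`. -/
inductive Curve
  | X15
  | X21
  | X24

/-- `y² = x³ + A x + B` is an equation of the curve. -/
def Curve.A : Curve → ℚ
  | X15 => -12987
  | X21 => -5211
  | X24 => -351

/-- `y² = x³ + A x + B` is an equation of the curve. -/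
def Curve.B : Curve → ℚ
  | X15 => -263466
  | X21 => -31050
  | X24 => 1890

/-- The class of the numbers `n`. -/
def Curve.Class : Curve → ℕ → Prop
  | X15, n => n % 60 = 23 ∨ n % 60 = 47
  | X21, n => n % 84 = 19 ∨ n % 84 = 31 ∨ n % 84 = 55
  | X24, n => n % 24 = 11

/-- The product of `2` and the primes of bad reduction. -/
def Curve.bad : Curve → ℕ
  | X15 => 30
  | X21 => 42
  | X24 => 6

/-- The twist by `d` of `y² = x³ + a x + b` is the twist by `-n` of the curve `C`, where `n` is
squarefree and in the class. -/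
def IsTwist (C : Curve) (a b : ℚ) (d : ℤ) (n : ℕ) : Prop :=
  Squarefree n ∧ C.Class n ∧
    ∃ u : ℚ, u ≠ 0 ∧ a * d ^ 2 = C.A * (-(n : ℚ)) ^ 2 * u ^ 4 ∧ b * d ^ 3 = C.B * (-(n : ℚ)) ^ 3 * u ^ 6

/-- `S` contains the real place, `2` and all primes of bad reduction of `y² = x³ + a x + b`, the twist by
`t = b A / (a B)` of the curve `C`: the primes of bad reduction of `C`, and the primes `p` where the
valuation of `t` is odd. -/
def ContainsBad (C : Curve) (a b : ℚ) (S : Finset Place) : Prop :=
  none ∈ S ∧ ∀ p : Nat.Primes,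
    ((p : ℕ) ∣ C.bad ∨ Odd (padicValRat (p : ℕ) (b * C.A / (a * C.B)))) → some p ∈ S

/-- Only the trivial factorizations `n = x y` are solvable. -/
def NoSolvableFactorization (n : ℕ) : Prop :=
  ∀ x y : ℕ, x * y = n → (∀ p ∈ y.primeFactors, jacobiSym x p = 1) →
    (∀ p ∈ x.primeFactors, jacobiSym y p = 1) → x = 1 ∨ y = 1

/-- The constant `η = ∏_{i ≥ 1} (1 - 2^{-i}) = 0.2887...` -/
noncomputable def η : ℝ := ∏' i : ℕ, (1 - (1 / 2 : ℝ) ^ (i + 1))

section proof

open Pool.Agent.Run7.h741.LC
open Pool.Agent.N969.P15 (Qc)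
open Pool.Agent.Run7.h843.G (Nf)

/-- the level of the library -/
def lv : Curve → Lv
  | .X15 => L15
  | .X21 => L21
  | .X24 => L24

theorem lv_P (C : Curve) (n : ℕ) : (lv C).P n ↔ C.Class n := by
  cases C <;> exact Iff.rfl

theorem A_ne (C : Curve) : C.A ≠ 0 := by
  cases C <;> norm_num [Curve.A]

theorem B_ne (C : Curve) : C.B ≠ 0 := by
  cases C <;> norm_num [Curve.B]

/-- the parameter -/
theorem exists_t (C : Curve) {a b : ℚ} (h0 : 4 * a ^ 3 + 27 * b ^ 2 ≠ 0)
    (hj : 1728 * (4 * a ^ 3) / (4 * a ^ 3 + 27 * b ^ 2) =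
      1728 * (4 * C.A ^ 3) / (4 * C.A ^ 3 + 27 * C.B ^ 2)) :
    ∃ t : ℚ, t ≠ 0 ∧ a = C.A * t ^ 2 ∧ b = C.B * t ^ 3 := by
  cases C with
  | X15 =>
    refine _root_.Run7.h238.G15.exists_tj h0 (hj.trans ?_)
    norm_num [Curve.A, Curve.B]
  | X21 =>
    refine _root_.Run7.h238.G21.exists_tj h0 (hj.trans ?_)
    norm_num [Curve.A, Curve.B]
  | X24 =>
    refine _root_.Run7.h238.G24.exists_tj h0 (hj.trans ?_)
    norm_num [Curve.A, Curve.B]

/-- central values -/
theorem rank_zero (C : Curve) {a b t : ℚ} (ha : a = C.A * t ^ 2) (hb : b = C.B * t ^ 3) {n : ℕ}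
    (hn : Squarefree n) (hc : C.Class n) (hq : Qc n) {d : ℤ} (hr : Rep t d n) :
    AnalyticRank (twist a b d) 0 := by
  obtain ⟨v, hv, hA⟩ := hr
  cases C with
  | X15 => exact _root_.Run7.h238.G15.rank_tws ha hb ⟨hn, hc, hq⟩ hv hA
  | X21 => exact _root_.Run7.h238.G21.rank_tws ha hb ⟨hn, hc, hq⟩ hv hA
  | X24 => exact _root_.Run7.h238.G24.rank_tws ha hb ⟨hn, hc, hq⟩ hv hA

theorem isTwist_iff (C : Curve) {a b t : ℚ} (ha : a = C.A * t ^ 2) (hb : b = C.B * t ^ 3) (d : ℤ)
    (n : ℕ) : IsTwist C a b d n ↔ Squarefree n ∧ (lv C).P n ∧ Rep t d n := by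
  unfold IsTwist
  rw [lv_P]
  refine and_congr_right fun hn => and_congr_right fun _ => ?_
  have hA := A_ne C
  have hB := B_ne C
  constructor
  · rintro ⟨u, hu, h1, h2⟩
    refine ⟨u, hu, ?_⟩
    have e3 : (t * d) ^ 3 = (-(n : ℚ) * u ^ 2) ^ 3 := by
      refine mul_left_cancel₀ hB ?_
      rw [hb] at h2
      linear_combination h2
    exact (Odd.strictMono_pow (by decide : Odd 3)).injective e3
  · rintro ⟨u, hu, h⟩
    refine ⟨u, hu, ?_, ?_⟩
    · rw [ha]
      have : C.A * t ^ 2 * (d : ℚ) ^ 2 = C.A * (t * d) ^ 2 := by ring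
      rw [this, h]
      ring
    · rw [hb]
      have : C.B * t ^ 3 * (d : ℚ) ^ 3 = C.B * (t * d) ^ 3 := by ring
      rw [this, h]
      ring

theorem samP_iff (p : Nat.Primes) (d e : ℤ) : SameAt (some p) d e ↔ SamP p d e := Iff.rfl

theorem family_eq {S : Finset Place} (hS : none ∈ S) (d : ℤ) :
    Family S d = Fam (Finset.eraseNone S) d := by
  ext e
  constructor
  · rintro ⟨h1, h2⟩
    exact ⟨h1, h2 none hS, fun p hp => h2 (some p) (Finset.mem_eraseNone.1 hp)⟩
  · rintro ⟨h1, h2, h3⟩
    refine ⟨h1, fun v hv => ?_⟩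
    cases v with
    | none => exact h2
    | some p => exact h3 p (Finset.mem_eraseNone.2 hv)

theorem num_eq {S : Finset Place} (hS : none ∈ S) (d : ℤ) (Q : ℤ → Prop) (X : ℕ) :
    num S d Q X = {e | e ∈ Fam (Finset.eraseNone S) d ∧ Pool.Agent.Run7.h741.LC.cond e ≤ X ∧ Q e}.ncard := by
  unfold num
  rw [family_eq hS]
  rfl

theorem num_le (S : Finset Place) (d : ℤ) (Q : ℤ → Prop) (X : ℕ) : num S d Q X ≤ 2 * X + 1 := by
  refine le_trans (le_of_eq ?_) (ncard_cond X fun e => e ∈ Family S d ∧ Q e)
  unfold num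
  congr 1
  ext e
  constructor
  · rintro ⟨h1, h2, h3⟩
    exact ⟨⟨h1, h3⟩, h2⟩
  · rintro ⟨⟨h1, h3⟩, h2⟩
    exact ⟨h1, h2, h3⟩

theorem fin_num (S : Finset Place) (d : ℤ) (Q : ℤ → Prop) (X : ℕ) :
    {e ∈ Family S d | conductor e ≤ X ∧ Q e}.Finite :=
  (finite_cond X fun e => e ∈ Family S d ∧ Q e).subset fun _ he => ⟨⟨he.1, he.2.2⟩, he.2.1⟩

/-- positive lower density for every finite set of places -/
theorem any (C : Curve) {a b t : ℚ} (ht : t ≠ 0) (ha : a = C.A * t ^ 2) (hb : b = C.B * t ^ 3)
    (S : Finset Place) (d : ℤ) (hd : Squarefree d) {e : ℤ} (he : e ∈ Family S d) {n : ℕ}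
    (hn : Squarefree n) (hP : (lv C).P n) (hr : Rep t e n) :
    ∃ c : ℝ, 0 < c ∧ ∀ᶠ X : ℕ in atTop, c * (num S d (fun _ => True) X : ℝ) ≤
      (num S d (fun e => AnalyticRank (twist a b e) 0) X : ℝ) := by
  obtain ⟨c, hc, h⟩ := lower_any (lv C) ht (fun e => AnalyticRank (twist a b e) 0)
    (fun d n _ h2 h3 h4 h5 => rank_zero C ha hb h2 ((lv_P C n).1 h3) h5 h4)
    (Finset.eraseNone S) he.1 hn hP hr
  refine ⟨c / 3, by positivity, ?_⟩
  filter_upwards [h, eventually_ge_atTop 1] with X hX h1
  have h2 : (num S d (fun _ => True) X : ℝ) ≤ 3 * X := by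
    have := num_le S d (fun _ => True) X
    have h3 : num S d (fun _ => True) X ≤ 3 * X := by omega
    exact_mod_cast h3
  have h3 : {f | f ∈ Fam (Finset.eraseNone S) e ∧ Pool.Agent.Run7.h741.LC.cond f ≤ X ∧
      AnalyticRank (twist a b f) 0}.ncard ≤ num S d (fun e => AnalyticRank (twist a b e) 0) X := by
    refine Set.ncard_le_ncard ?_ (fin_num S d _ X)
    rintro f ⟨⟨f1, f2, f3⟩, f4, f5⟩
    refine ⟨⟨f1, fun v hv => ?_⟩, f4, f5⟩
    have h4 := he.2 v hv
    cases v with
    | none =>
      have h5 : 0 < d * e := h4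
      have h6 : 0 < d * f * (e * e) := by
        have := mul_pos h5 f2
        have h7 : d * e * (e * f) = d * f * (e * e) := by ring
        rwa [h7] at this
      exact (pos_iff_pos_of_mul_pos h6).2 (mul_self_pos.2 he.1.ne_zero)
    | some p =>
      haveI : Fact (p : ℕ).Prime := ⟨p.2⟩
      exact Same.trans he.1.ne_zero h4 (f3 p (Finset.mem_eraseNone.2 hv))
  calc c / 3 * (num S d (fun _ => True) X : ℝ) ≤ c / 3 * (3 * X) := by gcongr
    _ = c * X := by ring
    _ ≤ _ := hX
    _ ≤ _ := by exact_mod_cast h3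

theorem sub_bad (C : Curve) {a b t : ℚ} (ht : t ≠ 0) (ha : a = C.A * t ^ 2) (hb : b = C.B * t ^ 3)
    {S : Finset Place} (hS : ContainsBad C a b S) : (lv C).bad ⊆ Finset.eraseNone S ∧
      ∀ p : Nat.Primes, Odd (padicValRat (p : ℕ) t) → p ∈ Finset.eraseNone S := by
  have hA := A_ne C
  have hB := B_ne C
  have e : b * C.A / (a * C.B) = t := by
    rw [ha, hb]
    field_simp
  constructor
  · intro p hp
    refine Finset.mem_eraseNone.2 (hS.2 p (Or.inl ?_))
    cases C with
    | X15 =>
      have : p ∈ ({pr2, pr3, pr5} : Finset Nat.Primes) := hp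
      simp only [Finset.mem_insert, Finset.mem_singleton] at this
      rcases this with rfl | rfl | rfl
      · show 2 ∣ 30
        norm_num
      · show 3 ∣ 30
        norm_num
      · show 5 ∣ 30
        norm_num
    | X21 =>
      have : p ∈ ({pr2, pr3, pr7} : Finset Nat.Primes) := hp
      simp only [Finset.mem_insert, Finset.mem_singleton] at this
      rcases this with rfl | rfl | rfl
      · show 2 ∣ 42
        norm_num
      · show 3 ∣ 42
        norm_num
      · show 7 ∣ 42
        norm_num
    | X24 =>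
      have : p ∈ ({pr2, pr3} : Finset Nat.Primes) := hp
      simp only [Finset.mem_insert, Finset.mem_singleton] at this
      rcases this with rfl | rfl
      · show 2 ∣ 6
        norm_num
      · show 3 ∣ 6
        norm_num
  · intro p hp
    refine Finset.mem_eraseNone.2 (hS.2 p (Or.inr ?_))
    rw [e]
    exact hp

/-- a class prime to the modulus -/
theorem exists_cls (C : Curve) : ∃ M r : ℕ, 2 ∣ M ∧ 0 < M ∧ r.Coprime M ∧
    (∀ p : ℕ, p.Prime → p ∣ M → p ∣ C.bad) ∧ ∀ n, n % M = r % M → C.Class n := by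
  have hp : ∀ {p k m : ℕ}, p.Prime → p ∣ k → k ∣ m ^ 3 → p ∣ m := fun h1 h2 h3 =>
    h1.dvd_of_dvd_pow (h2.trans h3)
  cases C with
  | X15 => exact ⟨60, 23, by norm_num, by norm_num, by norm_num, fun p h1 h2 =>
      hp h1 h2 (by norm_num [Curve.bad]), fun n h => Or.inl (by omega)⟩
  | X21 => exact ⟨84, 19, by norm_num, by norm_num, by norm_num, fun p h1 h2 =>
      hp h1 h2 (by norm_num [Curve.bad]), fun n h => Or.inl (by omega)⟩
  | X24 => exact ⟨24, 11, by norm_num, by norm_num, by norm_num, fun p h1 h2 =>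
      hp h1 h2 (by norm_num [Curve.bad]), fun n h => by
        show n % 24 = 11
        omega⟩

end proof

/-- **Main theorem.** -/
theorem result (C : Curve) (a b : ℚ) (h0 : 4 * a ^ 3 + 27 * b ^ 2 ≠ 0)
    (hj : 1728 * (4 * a ^ 3) / (4 * a ^ 3 + 27 * b ^ 2) =
      1728 * (4 * C.A ^ 3) / (4 * C.A ^ 3 + 27 * C.B ^ 2)) :
    (∀ (d : ℤ) (n : ℕ), IsTwist C a b d n → NoSolvableFactorization n →
      AnalyticRank (twist a b d) 0) ∧
    (∀ S : Finset Place, ContainsBad C a b S → ∀ d : ℤ, Squarefree d →
      (∃ n, IsTwist C a b d n) →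
      (∀ e ∈ Family S d, ∃ n, IsTwist C a b e n) ∧
      Tendsto (fun X : ℕ =>
        (num S d (fun e => ∃ n, IsTwist C a b e n ∧ NoSolvableFactorization n) X : ℝ) /
          (num S d (fun _ => True) X : ℝ)) atTop (𝓝 η) ∧
      ∀ c : ℝ, c < η → ∀ᶠ X : ℕ in atTop, c * (num S d (fun _ => True) X : ℝ) ≤
        (num S d (fun e => AnalyticRank (twist a b e) 0) X : ℝ)) ∧
    (∀ (S : Finset Place) (d : ℤ), Squarefree d → (∃ e ∈ Family S d, ∃ n, IsTwist C a b e n) →
      ∃ c : ℝ, 0 < c ∧ ∀ᶠ X : ℕ in atTop, c * (num S d (fun _ => True) X : ℝ) ≤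
        (num S d (fun e => AnalyticRank (twist a b e) 0) X : ℝ)) ∧
    (∀ (S : Finset Place) (d : ℤ), Squarefree d → none ∉ S →
      (∀ p : Nat.Primes, some p ∈ S → ¬ (p : ℕ) ∣ C.bad) →
      ∃ c : ℝ, 0 < c ∧ ∀ᶠ X : ℕ in atTop, c * (num S d (fun _ => True) X : ℝ) ≤
        (num S d (fun e => AnalyticRank (twist a b e) 0) X : ℝ)) ∧
    0.2887 < η := by
  obtain ⟨t, ht, ha, hb⟩ := exists_t C h0 hj
  have hη : (0.2887 : ℝ) < η := Pool.Agent.N916.GB.eta_bounds.1
  refine ⟨?_, ?_, ?_, ?_, hη⟩
  · intro d n h hq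
    obtain ⟨h1, h2, h3⟩ := (isTwist_iff C ha hb d n).1 h
    exact rank_zero C ha hb h1 ((lv_P C n).1 h2) hq h3
  · rintro S hS d hd ⟨n0, hn0⟩
    have hno : none ∈ S := hS.1
    obtain ⟨s1, s2⟩ := sub_bad C ht ha hb hS
    obtain ⟨h1, h2, h3⟩ := (isTwist_iff C ha hb d n0).1 hn0
    obtain ⟨g1, g2, -⟩ := Pool.Agent.Run7.h741.LC.main (lv C) ht (Finset.eraseNone S) s1 s2 d n0 hd
      h1 h2 h3
    have hQ : ∀ e, (∃ n : ℕ, Squarefree n ∧ (lv C).P n ∧ Pool.Agent.Run7.h741.LC.Rep t e n ∧
        Pool.Agent.Run7.h843.G.Nf n = 2 ^ (0 + 1)) ↔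
        ∃ n, IsTwist C a b e n ∧ NoSolvableFactorization n := by
      intro e
      refine exists_congr fun n => ?_
      rw [isTwist_iff C ha hb]
      constructor
      · rintro ⟨a1, a2, a3, a4⟩
        have := (lv C).four n a2
        exact ⟨⟨a1, a2, a3⟩, (Pool.Agent.Run7.h741.LC.Nf_two (by omega)).1 a4⟩
      · rintro ⟨⟨a1, a2, a3⟩, a4⟩
        have := (lv C).four n a2
        exact ⟨a1, a2, a3, (Pool.Agent.Run7.h741.LC.Nf_two (by omega)).2 a4⟩
    have hlim : Tendsto (fun X : ℕ =>
        (num S d (fun e => ∃ n, IsTwist C a b e n ∧ NoSolvableFactorization n) X : ℝ) /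
          (num S d (fun _ => True) X : ℝ)) atTop (𝓝 η) := by
      have h4 := g2 0
      rw [Pool.Agent.Run7.h741.LC.gk_zero] at h4
      refine h4.congr fun X => ?_
      rw [num_eq hno, num_eq hno]
      simp only [hQ, and_true]
    refine ⟨?_, hlim, fun c hc => ?_⟩
    · intro e he
      rw [family_eq hno] at he
      obtain ⟨n, a1, a2, a3⟩ := g1 e he
      exact ⟨n, (isTwist_iff C ha hb e n).2 ⟨a1, a2, a3⟩⟩
    · filter_upwards [hlim.eventually (lt_mem_nhds hc)] with X hX
      have h5 : num S d (fun e => ∃ n, IsTwist C a b e n ∧ NoSolvableFactorization n) X ≤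
          num S d (fun e => AnalyticRank (twist a b e) 0) X := by
        refine Set.ncard_le_ncard ?_ (fin_num S d _ X)
        rintro e ⟨e1, e2, n, e3, e4⟩
        obtain ⟨b1, b2, b3⟩ := (isTwist_iff C ha hb e n).1 e3
        exact ⟨e1, e2, rank_zero C ha hb b1 ((lv_P C n).1 b2) e4 b3⟩
      have h6 : (num S d (fun e => ∃ n, IsTwist C a b e n ∧ NoSolvableFactorization n) X : ℝ) ≤
          (num S d (fun e => AnalyticRank (twist a b e) 0) X : ℝ) := by exact_mod_cast h5
      rcases (Nat.cast_nonneg (num S d (fun _ => True) X) : (0 : ℝ) ≤ _).eq_or_lt with h7 | h7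
      · rw [← h7, mul_zero]
        exact Nat.cast_nonneg _
      · rw [lt_div_iff₀ h7] at hX
        exact hX.le.trans h6
  · rintro S d hd ⟨e, he, n, hn⟩
    obtain ⟨h1, h2, h3⟩ := (isTwist_iff C ha hb e n).1 hn
    exact any C ht ha hb S d hd he h1 h2 h3
  · intro S d hd hno hS
    obtain ⟨M, r, m1, m2, m3, m4, m5⟩ := exists_cls C
    obtain ⟨e, n, e1, e2, e3, e4, e5⟩ := Pool.Agent.Run7.h741.LC.exists_mem m1 m2 m3 ht
      (Finset.eraseNone S) (fun p hp hd' => hS p (Finset.mem_eraseNone.1 hp) (m4 p p.2 hd')) hd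
    refine any C ht ha hb S d hd (e := e) ⟨e1, fun v hv => ?_⟩ e2 ((lv_P C n).2 (m5 n e3)) e4
    cases v with
    | none => exact absurd hv hno
    | some p => exact e5 p (Finset.mem_eraseNone.2 hv)

end Pool.Agent.Results.MP_50bb2e_nt.TwistsWithLocalConditions
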